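import Mathlib

set_option autoImplicit false

open Finset

namespace H112NR

/-- a square of period `p` at the head of the list -/
def sq (p : ℕ) (w : List ℕ) : Prop := 2 * p ≤ w.length ∧ w.take p = (w.drop p).take p

/-- the local type of a word -/
def ty : List ℕ → ℕ
  | z :: y :: x :: u :: v :: _ =>
      if z = x then 3 else if z = u then (if y = v then 2 else 1) else 0
  | [z, _, x, u] => if z = x then 3 else if z = u then 1 else 0
  | [z, _, x] => if z = x then 3 else 0
  | _ => 0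

/-- `c` may be put in front of `w`, as far as squares of period `≤ 3` and the factor `ab` go -/
def okc (a b : ℕ) (w : List ℕ) (c : ℕ) : Prop :=
  ¬ sq 1 (c :: w) ∧ ¬ sq 2 (c :: w) ∧ ¬ sq 3 (c :: w) ∧ ¬ (w.head? = some a ∧ c = b)

def far (w : List ℕ) : Prop := ∃ p, 4 ≤ p ∧ sq p w

open Classical in
noncomputable def ext (a b : ℕ) (L : ℕ → Finset ℕ) (k : ℕ) (S : Finset (List ℕ)) :
    Finset (List ℕ) :=
  S.biUnion (fun w => ((L (k + 2)).filter (fun c => okc a b w c)).image (fun c => c :: w))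

open Classical in
noncomputable def Y (a b : ℕ) (L : ℕ → Finset ℕ) : ℕ → Finset (List ℕ)
  | 0 => {[b, a]}
  | k + 1 => (ext a b L k (Y a b L k)).filter (fun w => ¬ far w)

variable {a b : ℕ} {L : ℕ → Finset ℕ}

lemma mem_ext {k : ℕ} {S : Finset (List ℕ)} {w : List ℕ} :
    w ∈ ext a b L k S ↔ ∃ w' ∈ S, ∃ c ∈ L (k + 2), okc a b w' c ∧ c :: w' = w := by
  classical
  unfold ext
  simp only [mem_biUnion, mem_image, mem_filter]
  constructor
  · rintro ⟨w', h1, c, ⟨h2, h3⟩, h4⟩; exact ⟨w', h1, c, h2, h3, h4⟩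
  · rintro ⟨w', h1, c, h2, h3, h4⟩; exact ⟨w', h1, c, ⟨h2, h3⟩, h4⟩

lemma mem_Y_succ {k : ℕ} {w : List ℕ} :
    w ∈ Y a b L (k + 1) ↔
      ∃ w' ∈ Y a b L k, ∃ c ∈ L (k + 2), okc a b w' c ∧ c :: w' = w ∧ ¬ far w := by
  classical
  rw [Y, mem_filter, mem_ext]
  constructor
  · rintro ⟨⟨w', h1, c, h2, h3, h4⟩, h5⟩; exact ⟨w', h1, c, h2, h3, h4, h5⟩
  · rintro ⟨w', h1, c, h2, h3, h4, h5⟩; exact ⟨⟨w', h1, c, h2, h3, h4⟩, h5⟩

lemma length_Y {k : ℕ} : ∀ {w : List ℕ}, w ∈ Y a b L k → w.length = k + 2 := by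
  induction k with
  | zero => intro w hw; rw [Y, mem_singleton] at hw; subst hw; rfl
  | succ k ih =>
    intro w hw
    rw [mem_Y_succ] at hw
    obtain ⟨w', h1, c, -, -, h4, -⟩ := hw
    subst h4
    simp [ih h1]

lemma drop_Y {k : ℕ} : ∀ {w : List ℕ}, w ∈ Y a b L k → ∀ j, j ≤ k → w.drop j ∈ Y a b L (k - j) := by
  induction k with
  | zero => intro w hw j hj; obtain rfl : j = 0 := by omega
            simpa using hw
  | succ k ih =>
    intro w hw j hj
    rcases Nat.eq_zero_or_pos j with rfl | hj0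
    · simpa using hw
    obtain ⟨i, rfl⟩ : ∃ i, j = i + 1 := ⟨j - 1, by omega⟩
    rw [mem_Y_succ] at hw
    obtain ⟨w', h1, c, -, -, h4, -⟩ := hw
    subst h4
    rw [List.drop_succ_cons]
    have := ih h1 i (by omega)
    rwa [show k + 1 - (i + 1) = k - i by omega]

lemma dropk_Y {k : ℕ} {w : List ℕ} (hw : w ∈ Y a b L k) : w.drop k = [b, a] := by
  have := drop_Y hw k le_rfl
  rw [Nat.sub_self, Y, mem_singleton] at this
  exact this

lemma nsq_Y (hab : a ≠ b) {k : ℕ} {w : List ℕ} (hw : w ∈ Y a b L k) {p : ℕ} (hp : 1 ≤ p) :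
    ¬ sq p w := by
  cases k with
  | zero =>
    rw [Y, mem_singleton] at hw; subst hw
    rintro ⟨h1, h2⟩
    simp only [List.length_cons, List.length_nil] at h1
    obtain rfl : p = 1 := by omega
    simp at h2
    exact hab h2.symm
  | succ k =>
    rw [mem_Y_succ] at hw
    obtain ⟨w', h1, c, -, ⟨h3, h4, h5, -⟩, h7, h8⟩ := hw
    rcases Nat.lt_or_ge p 4 with h | h
    · interval_cases p
      · rwa [h7] at h3
      · rwa [h7] at h4
      · rwa [h7] at h5
    · intro hs; exact h8 ⟨p, h, hs⟩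

/-- no factor `a b` except at the very beginning -/
lemma noab_Y {k : ℕ} {w : List ℕ} (hw : w ∈ Y a b L k) {i : ℕ} (hi : i < k)
    (h1 : w[i]? = some b) (h2 : w[i + 1]? = some a) : False := by
  have h := drop_Y hw i hi.le
  obtain ⟨j, hj⟩ : ∃ j, k - i = j + 1 := ⟨k - i - 1, by omega⟩
  rw [hj, mem_Y_succ] at h
  obtain ⟨w', -, c, -, ⟨-, -, -, h6⟩, h7, -⟩ := h
  have e1 : w[i]? = some c := by
    have : (w.drop i)[0]? = some c := by rw [← h7]; rfl
    rwa [List.getElem?_drop, Nat.add_zero] at this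
  have e2 : w[i + 1]? = w'.head? := by
    have : (w.drop i)[1]? = w'.head? := by rw [← h7]; simp [List.head?_eq_getElem?]
    rwa [List.getElem?_drop] at this
  apply h6
  refine ⟨by rw [← e2, h2], ?_⟩
  rw [e1] at h1
  exact Option.some.inj h1

lemma getE_mem_Y {k : ℕ} {w : List ℕ} (hw : w ∈ Y a b L k) {i c : ℕ} (hi : i < k)
    (h1 : w[i]? = some c) : c ∈ L (k + 1 - i) := by
  have h := drop_Y hw i hi.le
  obtain ⟨j, hj⟩ : ∃ j, k - i = j + 1 := ⟨k - i - 1, by omega⟩
  rw [hj, mem_Y_succ] at h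
  obtain ⟨w', -, c', h3, -, h7, -⟩ := h
  have e1 : w[i]? = some c' := by
    have : (w.drop i)[0]? = some c' := by rw [← h7]; rfl
    rwa [List.getElem?_drop, Nat.add_zero] at this
  rw [e1] at h1
  obtain rfl := Option.some.inj h1
  rwa [show k + 1 - i = j + 2 by omega]

lemma getb_Y {k : ℕ} {w : List ℕ} (hw : w ∈ Y a b L k) : w[k]? = some b := by
  have := dropk_Y hw
  have h : (w.drop k)[0]? = some b := by rw [this]; rfl
  rwa [List.getElem?_drop, Nat.add_zero] at h

lemma geta_Y {k : ℕ} {w : List ℕ} (hw : w ∈ Y a b L k) : w[k + 1]? = some a := by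
  have := dropk_Y hw
  have h : (w.drop k)[1]? = some a := by rw [this]; rfl
  rwa [List.getElem?_drop] at h

/-! ### sums -/

lemma sum_ext {k : ℕ} (S : Finset (List ℕ)) (Φ : List ℕ → ℚ) :
    ∑ w ∈ ext a b L k S, Φ w =
      ∑ w ∈ S, ∑ c ∈ L (k + 2), (open Classical in if okc a b w c then Φ (c :: w) else 0) := by
  classical
  unfold ext
  rw [sum_biUnion]
  · refine sum_congr rfl (fun w _ => ?_)
    rw [sum_image]
    · rw [sum_filter]
    · intro x _ y _ h; exact (List.cons.inj h).1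
  · intro w _ w' _ hne
    rw [Function.onFun, disjoint_left]
    intro v hv hv'
    rw [mem_image] at hv hv'
    obtain ⟨c, -, rfl⟩ := hv
    obtain ⟨c', -, h⟩ := hv'
    exact hne (List.cons.inj h).2.symm

lemma ty_take (w : List ℕ) : ty w = ty (w.take 5) := by
  rcases w with _ | ⟨z, _ | ⟨y, _ | ⟨x, _ | ⟨u, _ | ⟨v, r⟩⟩⟩⟩⟩ <;> simp [ty]

/-- a long square preserves the type -/
lemma pres (hab : a ≠ b) {k : ℕ} {w : List ℕ} (hw : w ∈ Y a b L k) {c p : ℕ} (hp : 4 ≤ p)
    (h : sq p (c :: w)) :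
    ty ((c :: w).drop p) = ty (c :: w) ∧ ((c :: w).drop p).head? = (c :: w).head? := by
  obtain ⟨h1, h2⟩ := h
  refine ⟨?_, ?_⟩
  · rcases Nat.lt_or_ge 4 p with h5 | h5
    · rw [ty_take ((c :: w).drop p), ty_take (c :: w)]
      congr 1
      have := congrArg (List.take 5) h2
      rw [List.take_take, List.take_take, min_eq_left (by omega)] at this
      exact this.symm
    · obtain rfl : p = 4 := by omega
      rw [List.length_cons, length_Y hw] at h1
      have hlen := length_Y hw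
      rcases w with _ | ⟨x1, _ | ⟨x2, _ | ⟨x3, _ | ⟨x4, _ | ⟨x5, _ | ⟨x6, _ | ⟨x7, r⟩⟩⟩⟩⟩⟩⟩ <;>
        simp only [List.length_cons, List.length_nil] at hlen <;> try omega
      simp only [List.take, List.drop, List.cons.injEq] at h2
      obtain ⟨e0, e1, e2, e3, -⟩ := h2
      have hne : x3 ≠ x4 := by
        intro he
        have hd := drop_Y hw 2 (by omega)
        apply nsq_Y hab hd (le_refl 1)
        refine ⟨by simp, ?_⟩
        simp [he]
      subst e0 e1 e2 e3
      simp only [List.drop]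
      rcases r with _ | ⟨x8, r⟩
      · simp only [ty]
        have h34 : ¬ c = x3 := fun h => hne h.symm
        simp [h34]
      · simp only [ty]
        have h34 : ¬ c = x3 := fun h => hne h.symm
        simp [h34]
  · have := congrArg List.head? h2
    rw [List.head?_take, List.head?_take] at this
    rw [if_neg (by omega), if_neg (by omega)] at this
    exact this.symm

lemma sq_len {k : ℕ} {w : List ℕ} (hw : w ∈ Y a b L k) {c p : ℕ} (hp : 3 ≤ p)
    (h : sq p (c :: w)) : 2 * p ≤ k + 2 := by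
  obtain ⟨h1, h2⟩ := h
  rw [List.length_cons, length_Y hw] at h1
  by_contra hcon
  have hk : 2 * p = k + 3 := by omega
  have ha : ((c :: w).take p)[p - 1]? = some a := by
    rw [h2, List.getElem?_take, if_pos (by omega), List.getElem?_drop]
    have : p + (p - 1) = (k + 1) + 1 := by omega
    rw [this, List.getElem?_cons_succ]
    exact geta_Y hw
  have hb : ((c :: w).take p)[p - 2]? = some b := by
    rw [h2, List.getElem?_take, if_pos (by omega), List.getElem?_drop]
    have : p + (p - 2) = k + 1 := by omega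
    rw [this, List.getElem?_cons_succ]
    exact getb_Y hw
  rw [List.getElem?_take, if_pos (by omega)] at ha hb
  obtain ⟨q, rfl⟩ : ∃ q, p = q + 3 := ⟨p - 3, by omega⟩
  have e1 : q + 3 - 1 = (q + 1) + 1 := by omega
  have e2 : q + 3 - 2 = q + 1 := by omega
  rw [e1, List.getElem?_cons_succ] at ha
  rw [e2, List.getElem?_cons_succ] at hb
  exact noab_Y hw (by omega) hb ha

lemma sum_bU_le {ι α : Type*} [DecidableEq α] (s : Finset ι) (t : ι → Finset α) (f : α → ℚ)
    (hf : ∀ x, 0 ≤ f x) : ∑ x ∈ s.biUnion t, f x ≤ ∑ i ∈ s, ∑ x ∈ t i, f x := by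
  classical
  induction s using Finset.induction_on with
  | empty => simp
  | insert i s hi ih =>
    rw [biUnion_insert, sum_insert hi]
    have h := sum_union_inter (s₁ := t i) (s₂ := s.biUnion t) (f := f)
    have h2 : 0 ≤ ∑ x ∈ t i ∩ s.biUnion t, f x := sum_nonneg (fun x _ => hf x)
    linarith

/-- the general step inequality -/
lemma step (hab : a ≠ b) (k : ℕ) (Φ : List ℕ → ℚ) (h0 : ∀ w, 0 ≤ Φ w)
    (hΦ : ∀ w w' : List ℕ, ty w = ty w' → w.head? = w'.head? → Φ w = Φ w') :
    ∑ w ∈ Y a b L k, ∑ c ∈ L (k + 2), (open Classical in if okc a b w c then Φ (c :: w) else 0) ≤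
      ∑ w ∈ Y a b L (k + 1), Φ w
        + ∑ p ∈ Icc 4 ((k + 2) / 2), ∑ v ∈ Y a b L (k + 1 - p), Φ v := by
  classical
  rw [← sum_ext (k := k) (L := L), Y,
    ← sum_filter_add_sum_filter_not (ext a b L k (Y a b L k)) (fun w => ¬ far w)]
  refine add_le_add_right ?_ _
  set Bad : ℕ → Finset (List ℕ) := fun p => (ext a b L k (Y a b L k)).filter (fun w => sq p w)
    with hBad
  have hsub : (ext a b L k (Y a b L k)).filter (fun w => ¬ ¬ far w) ⊆
      (Icc 4 ((k + 2) / 2)).biUnion Bad := by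
    intro v hv
    rw [mem_filter, not_not] at hv
    obtain ⟨hv, p, hp, hs⟩ := hv
    rw [mem_biUnion]
    refine ⟨p, ?_, ?_⟩
    · rw [mem_ext] at hv
      obtain ⟨w, hw, c, -, -, rfl⟩ := hv
      have := sq_len hw (by omega) hs
      rw [mem_Icc]; omega
    · simp only [hBad, mem_filter]; exact ⟨hv, hs⟩
  refine le_trans (sum_le_sum_of_subset_of_nonneg hsub (fun i _ _ => h0 i)) ?_
  refine le_trans (sum_bU_le _ _ _ h0) ?_
  refine sum_le_sum (fun p hp => ?_)
  rw [mem_Icc] at hp
  have hinj : Set.InjOn (fun v : List ℕ => v.drop p) (Bad p : Set (List ℕ)) := by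
    intro v hv v' hv' h
    simp only [hBad, coe_filter, Set.mem_setOf_eq] at hv hv'
    have h' : v.drop p = v'.drop p := h
    calc v = v.take p ++ v.drop p := (List.take_append_drop p v).symm
      _ = v'.take p ++ v'.drop p := by rw [hv.2.2, hv'.2.2, h']
      _ = v' := List.take_append_drop p v'
  calc ∑ v ∈ Bad p, Φ v = ∑ v ∈ Bad p, Φ (v.drop p) := by
        refine sum_congr rfl (fun v hv => ?_)
        simp only [hBad, mem_filter, mem_ext] at hv
        obtain ⟨⟨w, hw, c, -, -, rfl⟩, hs⟩ := hv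
        have := pres hab hw (by omega) hs
        exact hΦ _ _ this.1.symm this.2.symm
    _ = ∑ v ∈ (Bad p).image (fun v => v.drop p), Φ v := (sum_image hinj).symm
    _ ≤ ∑ v ∈ Y a b L (k + 1 - p), Φ v := by
        refine sum_le_sum_of_subset_of_nonneg ?_ (fun i _ _ => h0 i)
        intro v hv
        rw [mem_image] at hv
        obtain ⟨x, hx, rfl⟩ := hv
        simp only [hBad, mem_filter, mem_ext] at hx
        obtain ⟨⟨w, hw, c, -, -, rfl⟩, hs⟩ := hx
        obtain ⟨q, rfl⟩ : ∃ q, p = q + 1 := ⟨p - 1, by omega⟩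
        rw [List.drop_succ_cons]
        have := drop_Y hw q (by omega)
        rwa [show k + 1 - (q + 1) = k - q by omega]

end H112NR
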