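import Pool.Agent.H112R3.NR.Final

set_option autoImplicit false

open Finset

namespace H112NR

variable {a b : ℕ} {L : ℕ → Finset ℕ}

lemma V_ge {w : List ℕ} (h : w.head? ≠ some a) : 61 ≤ V a w := by
  unfold V
  rw [if_neg h]
  rcases ty_lt w with e | e | e | e <;> rw [e] <;> norm_num [vV]

lemma V0_le {w : List ℕ} : V0 a w ≤ 100 := by
  unfold V0
  rcases ty_lt w with e | e | e | e <;> rw [e] <;> split_ifs <;> norm_num [vV]

/-- words such that putting `a` in front closes a square of period `t` -/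
def T1 (a t : ℕ) (w : List ℕ) : Prop := sq t (a :: w)

/-- words such that `w` and its beginning `w_1 .. w_t` close a square of period `t` -/
def T2 (a k t : ℕ) (w : List ℕ) : Prop :=
  w.take (t - 1) = (w.drop (k + 2 - t)).take (t - 1) ∧ w[k + 1 - t]? = some a

lemma T1_get {t : ℕ} (ht : 1 ≤ t) {w : List ℕ} (h : T1 a t w) :
    w.drop (t - 1) = a :: w.drop t ∧ a :: w = (a :: w.drop t).take t ++ (a :: w.drop t) := by
  obtain ⟨h1, h2⟩ := h
  obtain ⟨s, rfl⟩ : ∃ s, t = s + 1 := ⟨t - 1, by omega⟩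
  have e : (a :: w).drop (s + 1) = w.drop s := by rw [List.drop_succ_cons]
  rw [e] at h2
  simp only [List.length_cons] at h1
  have hlt : s < w.length := by omega
  have e2 : w.drop s = w[s] :: w.drop (s + 1) := List.drop_eq_getElem_cons hlt
  have e3 : w[s] = a := by
    rw [e2] at h2
    simp only [List.take_succ_cons, List.cons.injEq] at h2
    exact h2.1.symm
  have e4 : w.drop (s + 1 - 1) = a :: w.drop (s + 1) := by
    rw [Nat.add_sub_cancel, e2, e3]
  refine ⟨e4, ?_⟩
  have e5 := List.take_append_drop (s + 1) (a :: w)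
  rw [← e5, h2, e]
  rw [Nat.add_sub_cancel] at e4
  rw [e4]

lemma T1_un (hab : a ≠ b) {k t : ℕ} (ht : 1 ≤ t) (htk : t ≤ k) {w : List ℕ} (hw : w ∈ Y a b L k)
    (h : T1 a t w) : (w.drop t).head? ≠ some a := by
  intro hh
  have h1 := (T1_get ht h).1
  have hd := drop_Y hw (t - 1) (by omega)
  apply nsq_Y hab hd (le_refl 1)
  rw [h1]
  refine ⟨?_, ?_⟩
  · have := length_Y hw
    simp only [List.length_cons, List.length_drop]; omega
  · cases h2 : w.drop t with
    | nil => rw [h2] at hh; simp at hh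
    | cons x r =>
      rw [h2] at hh
      simp only [List.head?_cons, Option.some.injEq] at hh
      simp [hh]

open Classical in
lemma T1_sum (hab : a ≠ b) {k t : ℕ} (ht : 1 ≤ t) (htk : t ≤ k) (Ψ : List ℕ → ℚ)
    (hΨ : ∀ w ∈ Y a b L k, w.head? ≠ some a → T1 a t w → V0 a w ≤ Ψ (w.drop t))
    (hΨ0 : ∀ w, w.head? ≠ some a → 0 ≤ Ψ w) :
    ∑ w ∈ (Y a b L k).filter (fun w => w.head? ≠ some a ∧ T1 a t w), V0 a w ≤
      ∑ w ∈ (Y a b L (k - t)).filter (fun w => w.head? ≠ some a), Ψ w := by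
  set B := (Y a b L k).filter (fun w => w.head? ≠ some a ∧ T1 a t w) with hB
  have hinj : Set.InjOn (fun v : List ℕ => v.drop t) (B : Set (List ℕ)) := by
    intro v hv v' hv' h
    rw [hB] at hv hv'
    simp only [coe_filter, Set.mem_setOf_eq] at hv hv'
    have h' : v.drop t = v'.drop t := h
    have e1 := (T1_get ht hv.2.2).2
    have e2 := (T1_get ht hv'.2.2).2
    rw [h'] at e1
    exact (List.cons.inj (e1.trans e2.symm)).2
  calc ∑ w ∈ B, V0 a w ≤ ∑ w ∈ B, Ψ (w.drop t) := by
        refine sum_le_sum (fun w hw => ?_)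
        rw [hB, mem_filter] at hw
        exact hΨ w hw.1 hw.2.1 hw.2.2
    _ = ∑ w ∈ B.image (fun v => v.drop t), Ψ w := (sum_image hinj).symm
    _ ≤ _ := by
        refine sum_le_sum_of_subset_of_nonneg ?_ ?_
        · intro v hv
          rw [mem_image] at hv
          obtain ⟨w, hw, rfl⟩ := hv
          rw [hB, mem_filter] at hw
          rw [mem_filter]
          exact ⟨drop_Y hw.1 t htk, T1_un hab ht htk hw.1 hw.2.2⟩
        · intro v hv _
          rw [mem_filter] at hv
          exact hΨ0 v hv.2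

lemma T2_un {k t : ℕ} (ht : 2 ≤ t) (htk : 2 * t ≤ k + 2) {w : List ℕ} (hw : w ∈ Y a b L k)
    (h : T2 a k t w) : (w.drop (t - 1)).head? ≠ some a := by
  intro hh
  have hb : w[t - 2]? = some b := by
    have e : (w.take (t - 1))[t - 2]? = w[t - 2]? := by
      rw [List.getElem?_take, if_pos (by omega)]
    rw [← e, h.1, List.getElem?_take, if_pos (by omega), List.getElem?_drop,
      show k + 2 - t + (t - 2) = k by omega]
    exact getb_Y hw
  have ha : w[t - 2 + 1]? = some a := by
    rw [List.head?_eq_getElem?, List.getElem?_drop] at hh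
    rwa [show t - 2 + 1 = t - 1 + 0 by omega]
  exact noab_Y hw (by omega) hb ha

open Classical in
lemma T2_sum {k t : ℕ} (ht : 2 ≤ t) (htk : 2 * t ≤ k + 2) :
    ∑ w ∈ (Y a b L k).filter (fun w => w.head? ≠ some a ∧ T2 a k t w), V0 a w ≤
      100 / 61 * W a b L (k + 1 - t) := by
  set B := (Y a b L k).filter (fun w => w.head? ≠ some a ∧ T2 a k t w) with hB
  have hinj : Set.InjOn (fun v : List ℕ => v.drop (t - 1)) (B : Set (List ℕ)) := by
    intro v hv v' hv' h
    rw [hB] at hv hv'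
    simp only [coe_filter, Set.mem_setOf_eq] at hv hv'
    have h' : v.drop (t - 1) = v'.drop (t - 1) := h
    have key : ∀ x : List ℕ, T2 a k t x →
        x = ((x.drop (t - 1)).drop (k + 2 - t - (t - 1))).take (t - 1) ++ x.drop (t - 1) := by
      intro x hx
      rw [List.drop_drop, show t - 1 + (k + 2 - t - (t - 1)) = k + 2 - t by omega, ← hx.1,
        List.take_append_drop]
    rw [key v hv.2.2, key v' hv'.2.2, h']
  unfold W
  rw [mul_sum]
  calc ∑ w ∈ B, V0 a w ≤ ∑ w ∈ B, 100 / 61 * V a (w.drop (t - 1)) := by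
        refine sum_le_sum (fun w hw => ?_)
        rw [hB, mem_filter] at hw
        have h1 := V_ge (T2_un ht htk hw.1 hw.2.2)
        have h2 := V0_le (a := a) (w := w)
        linarith
    _ = ∑ w ∈ B.image (fun v => v.drop (t - 1)), 100 / 61 * V a w :=
        (sum_image (f := fun w => 100 / 61 * V a w) hinj).symm
    _ ≤ _ := by
        refine sum_le_sum_of_subset_of_nonneg ?_ ?_
        · intro v hv
          rw [mem_image] at hv
          obtain ⟨w, hw, rfl⟩ := hv
          rw [hB, mem_filter] at hw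
          have := drop_Y hw.1 (t - 1) (by omega)
          rwa [show k - (t - 1) = k + 1 - t by omega] at this
        · intro v _ _
          have := V_pos (a := a) v
          linarith

open Classical in
/-- number of words not ending with `a` -/
noncomputable def U (a b : ℕ) (L : ℕ → Finset ℕ) (k : ℕ) : ℚ :=
  ∑ w ∈ Y a b L k, (if w.head? = some a then 0 else 73)

lemma ty_T1_2 {k : ℕ} {w : List ℕ} (hw : w ∈ Y a b L k) (hk : 1 ≤ k) (h : T1 a 2 w) : ty w = 3 := by
  have hlen := length_Y hw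
  obtain ⟨h1, h2⟩ := h
  rcases w with _ | ⟨z, _ | ⟨y, _ | ⟨x, _ | ⟨u, _ | ⟨v, r⟩⟩⟩⟩⟩ <;>
    simp only [List.length_cons, List.length_nil] at hlen <;> try omega
  all_goals
    simp only [List.take, List.drop, List.cons.injEq, and_true] at h2
    simp [ty, h2.2]

lemma ty_T1_3 {k : ℕ} {w : List ℕ} (hw : w ∈ Y a b L k) (hk : 3 ≤ k) (h : T1 a 3 w)
    (hh : w.head? ≠ some a) : ty w = 2 := by
  have hlen := length_Y hw
  obtain ⟨h1, h2⟩ := h
  rcases w with _ | ⟨z, _ | ⟨y, _ | ⟨x, _ | ⟨u, _ | ⟨v, r⟩⟩⟩⟩⟩ <;>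
    simp only [List.length_cons, List.length_nil] at hlen <;> try omega
  simp only [List.take, List.drop, List.cons.injEq, and_true] at h2
  simp only [List.head?_cons, ne_eq, Option.some.injEq] at hh
  have h3 : ¬ z = x := by rw [← h2.1]; exact hh
  simp only [ty, if_neg h3, if_pos h2.2.1, if_pos h2.2.2]

theorem close (h : Good a b L) {m : ℕ} (hm : 7 ≤ m) :
    ∃ w ∈ Y a b L (m + 2), w.head? ≠ some a ∧
      ∀ t, 2 ≤ t → 2 * t ≤ m + 4 → ¬ T1 a t w ∧ ¬ T2 a (m + 2) t w := by
  classical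
  by_contra hcon
  push Not at hcon
  have hWm := pos h m (by omega)
  -- step one
  have s1 := step (L := L) h.hab m F (fun w => (F_pos w).le) F_congr
  have s1l : 296 / 100 * W a b L m + U a b L m ≤
      ∑ w ∈ Y a b L m, ∑ c ∈ L (m + 2), (if okc a b w c then F (c :: w) else 0) := by
    unfold W U
    rw [mul_sum, ← sum_add_distrib]
    refine sum_le_sum (fun w hw => ?_)
    exact oneF hw (h.n m (by omega))
  have s1r : ∑ p ∈ Icc 4 ((m + 2) / 2), ∑ v ∈ Y a b L (m + 1 - p), F v ≤
      236 / 100 * (W a b L m * (2 * (1 / 2) ^ 3)) := by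
    have e := Wsum h (k := m) 1 4 ((m + 2) / 2) (by omega) (fun p h1 h2 => by omega)
    refine le_trans ?_ (mul_le_mul_of_nonneg_left e (by norm_num))
    rw [mul_sum]
    refine sum_le_sum (fun p _ => ?_)
    unfold W
    rw [mul_sum]
    exact sum_le_sum (fun v _ => F_le_V v)
  -- step two
  have s2 := step (L := L) h.hab (m + 1) (V0 a) V0_nonneg V0_congr
  have s2l : ∑ w ∈ Y a b L (m + 1), F w ≤
      ∑ w ∈ Y a b L (m + 1), ∑ c ∈ L (m + 1 + 2), (if okc a b w c then V0 a (c :: w) else 0) :=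
    sum_le_sum (fun w hw => oneV0 hw (h.n (m + 1) (by omega)))
  have s2r : ∑ p ∈ Icc 4 ((m + 1 + 2) / 2), ∑ v ∈ Y a b L (m + 1 + 1 - p), V0 a v ≤
      W a b L m * (2 * (1 / 2) ^ 2) := by
    have e := Wsum h (k := m) 2 4 ((m + 1 + 2) / 2) (by omega) (fun p h1 h2 => by omega)
    refine le_trans ?_ e
    refine sum_le_sum (fun p _ => ?_)
    unfold W
    exact sum_le_sum (fun v _ => V0_le_V v)
  -- crossing squares
  have hcov : ∑ w ∈ Y a b L (m + 2), V0 a w ≤
      ∑ t ∈ Icc 2 ((m + 4) / 2),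
        ∑ w ∈ (Y a b L (m + 2)).filter (fun w => w.head? ≠ some a ∧ T1 a t w), V0 a w
      + ∑ t ∈ Icc 6 ((m + 4) / 2),
        ∑ w ∈ (Y a b L (m + 2)).filter (fun w => w.head? ≠ some a ∧ T2 a (m + 2) t w), V0 a w := by
    have e1 : ∑ w ∈ Y a b L (m + 2), V0 a w =
        ∑ w ∈ (Y a b L (m + 2)).filter (fun w => w.head? ≠ some a), V0 a w := by
      rw [sum_filter]
      refine sum_congr rfl (fun w _ => ?_)
      unfold V0
      split_ifs <;> first | rfl | (exfalso; tauto)
    rw [e1]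
    refine le_trans ?_ (add_le_add (sum_bU_le _ _ _ V0_nonneg) (sum_bU_le _ _ _ V0_nonneg))
    refine le_trans (b := ∑ w ∈ ((Icc 2 ((m + 4) / 2)).biUnion (fun t =>
        (Y a b L (m + 2)).filter (fun w => w.head? ≠ some a ∧ T1 a t w)) ∪
        (Icc 6 ((m + 4) / 2)).biUnion (fun t =>
        (Y a b L (m + 2)).filter (fun w => w.head? ≠ some a ∧ T2 a (m + 2) t w))), V0 a w) ?_ ?_
    · refine sum_le_sum_of_subset_of_nonneg ?_ (fun w _ _ => V0_nonneg w)
      intro w hw
      rw [mem_filter] at hw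
      obtain ⟨t, h2, ht, hT⟩ := hcon w hw.1 hw.2
      rw [mem_union]
      by_cases hT1 : T1 a t w
      · left
        rw [mem_biUnion]
        exact ⟨t, by rw [mem_Icc]; omega, by rw [mem_filter]; exact ⟨hw.1, hw.2, hT1⟩⟩
      · right
        have hT2 := hT hT1
        rw [mem_biUnion]
        refine ⟨t, ?_, by rw [mem_filter]; exact ⟨hw.1, hw.2, hT2⟩⟩
        rw [mem_Icc]
        refine ⟨?_, by omega⟩
        by_contra h6
        have := getE_mem_Y hw.1 (by omega : m + 2 + 1 - t < m + 2) hT2.2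
        rw [show m + 2 + 1 - (m + 2 + 1 - t) = (t - 2) + 2 by omega] at this
        exact (h.z (t - 2) (by omega)).2 this
    · have := sum_union_inter (f := V0 a) (s₁ := ((Icc 2 ((m + 4) / 2)).biUnion (fun t =>
        (Y a b L (m + 2)).filter (fun w => w.head? ≠ some a ∧ T1 a t w))))
        (s₂ := (Icc 6 ((m + 4) / 2)).biUnion (fun t =>
        (Y a b L (m + 2)).filter (fun w => w.head? ≠ some a ∧ T2 a (m + 2) t w)))
      rw [← this]
      have h2 : 0 ≤ ∑ x ∈ ((Icc 2 ((m + 4) / 2)).biUnion (fun t =>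
        (Y a b L (m + 2)).filter (fun w => w.head? ≠ some a ∧ T1 a t w))) ∩
        (Icc 6 ((m + 4) / 2)).biUnion (fun t =>
        (Y a b L (m + 2)).filter (fun w => w.head? ≠ some a ∧ T2 a (m + 2) t w)), V0 a x :=
        sum_nonneg (fun w _ => V0_nonneg w)
      linarith
  -- period two
  have hT12 : ∑ w ∈ (Y a b L (m + 2)).filter (fun w => w.head? ≠ some a ∧ T1 a 2 w), V0 a w ≤
      U a b L m := by
    refine le_trans (T1_sum h.hab (by omega) (by omega) (fun _ => 73) ?_ (fun _ _ => by norm_num)) ?_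
    · intro w hw h1 h2
      unfold V0
      rw [if_neg h1, ty_T1_2 hw (by omega) h2]
      norm_num [vV]
    · rw [Nat.add_sub_cancel]
      unfold U
      rw [sum_filter]
      refine sum_le_sum (fun w _ => ?_)
      split_ifs <;> first | norm_num | (exfalso; tauto)
  -- period three
  have hT13 : ∑ w ∈ (Y a b L (m + 2)).filter (fun w => w.head? ≠ some a ∧ T1 a 3 w), V0 a w ≤
      W a b L m * (1 / 2) ^ 1 := by
    refine le_trans (T1_sum h.hab (by omega) (by omega) (V a) ?_ (fun w _ => (V_pos w).le)) ?_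
    · intro w hw h1 h2
      have := V_ge (T1_un h.hab (by omega) (by omega) hw h2)
      unfold V0
      rw [if_neg h1, ty_T1_3 hw (by omega) h2 h1]
      simpa [vV] using this
    · refine le_trans ?_ (Wb h (k := m) 1 (by omega))
      rw [show m + 2 - 3 = m - 1 by omega]
      unfold W
      exact sum_le_sum_of_subset_of_nonneg (filter_subset _ _) (fun w _ _ => (V_pos w).le)
  -- long periods
  have hT1 : ∑ t ∈ Icc 4 ((m + 4) / 2),
      ∑ w ∈ (Y a b L (m + 2)).filter (fun w => w.head? ≠ some a ∧ T1 a t w), V0 a w ≤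
      100 / 61 * (W a b L m * (2 * (1 / 2) ^ 2)) := by
    have e := Wsum h (k := m) 2 4 ((m + 4) / 2) (by omega) (fun p h1 h2 => by omega)
    refine le_trans ?_ (mul_le_mul_of_nonneg_left e (by norm_num))
    rw [mul_sum]
    refine sum_le_sum (fun t ht => ?_)
    rw [mem_Icc] at ht
    refine le_trans (T1_sum h.hab (by omega) (by omega) (fun w => 100 / 61 * V a w) ?_
      (fun w _ => by have := V_pos (a := a) w; positivity)) ?_
    · intro w hw h1 h2
      have h3 := V_ge (T1_un h.hab (by omega) (by omega) hw h2)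
      have h4 := V0_le (a := a) (w := w)
      linarith
    · unfold W
      rw [mul_sum]
      exact sum_le_sum_of_subset_of_nonneg (filter_subset _ _)
        (fun w _ _ => by have := V_pos (a := a) w; positivity)
  have hT2 : ∑ t ∈ Icc 6 ((m + 4) / 2),
      ∑ w ∈ (Y a b L (m + 2)).filter (fun w => w.head? ≠ some a ∧ T2 a (m + 2) t w), V0 a w ≤
      100 / 61 * (W a b L m * (2 * (1 / 2) ^ 3)) := by
    have e := Wsum h (k := m) 3 6 ((m + 4) / 2) (by omega) (fun p h1 h2 => by omega)
    refine le_trans ?_ (mul_le_mul_of_nonneg_left e (by norm_num))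
    rw [mul_sum]
    refine sum_le_sum (fun t ht => ?_)
    rw [mem_Icc] at ht
    have := T2_sum (a := a) (b := b) (L := L) (k := m + 2) (t := t) (by omega) (by omega)
    rwa [show m + 2 + 1 - t = m + 3 - t by omega] at this
  have hsplit : ∑ t ∈ Icc 2 ((m + 4) / 2),
        ∑ w ∈ (Y a b L (m + 2)).filter (fun w => w.head? ≠ some a ∧ T1 a t w), V0 a w =
      (∑ w ∈ (Y a b L (m + 2)).filter (fun w => w.head? ≠ some a ∧ T1 a 2 w), V0 a w) +
      ((∑ w ∈ (Y a b L (m + 2)).filter (fun w => w.head? ≠ some a ∧ T1 a 3 w), V0 a w) +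
      ∑ t ∈ Icc 4 ((m + 4) / 2),
        ∑ w ∈ (Y a b L (m + 2)).filter (fun w => w.head? ≠ some a ∧ T1 a t w), V0 a w) := by
    have e1 : Icc 2 ((m + 4) / 2) = insert 2 (insert 3 (Icc 4 ((m + 4) / 2))) := by
      ext x; simp only [mem_Icc, mem_insert]; omega
    rw [e1, sum_insert (by simp), sum_insert (by simp)]
  rw [hsplit] at hcov
  have c3 : (2 : ℚ) * (1 / 2) ^ 3 = 1 / 4 := by norm_num
  have c2 : (2 : ℚ) * (1 / 2) ^ 2 = 1 / 2 := by norm_num
  rw [c3] at s1r hT2
  rw [c2] at s2r hT1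
  rw [pow_one] at hT13
  rw [show m + 1 + 1 = m + 2 by omega] at s2 s2r
  have hU : U a b L m ≤ U a b L m := le_refl _
  linarith

end H112NR
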