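import Pool.Agent.H112R3.NR.Close

set_option autoImplicit false

open Finset

namespace H112NR

variable {a b : ℕ} {L : ℕ → Finset ℕ}

/-- colour of position `i` -/
def col (k : ℕ) (w : List ℕ) (i : ℕ) : ℕ := (w[k + 1 - i]?).getD 0

lemma getE_col {k : ℕ} {w : List ℕ} (hw : w.length = k + 2) {i : ℕ} (hi : i ≤ k + 1) :
    w[i]? = some (col k w (k + 1 - i)) := by
  unfold col
  rw [show k + 1 - (k + 1 - i) = i by omega]
  have : i < w.length := by omega
  rw [List.getElem?_eq_getElem this]
  rfl

lemma col_zero {k : ℕ} {w : List ℕ} (hw : w ∈ Y a b L k) : col k w 0 = a := by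
  unfold col
  rw [Nat.sub_zero, geta_Y hw]; rfl

lemma col_one {k : ℕ} {w : List ℕ} (hw : w ∈ Y a b L k) : col k w 1 = b := by
  unfold col
  rw [Nat.add_sub_cancel, getb_Y hw]; rfl

lemma col_mem {k : ℕ} {w : List ℕ} (hw : w ∈ Y a b L k) {i : ℕ} (hi : 2 ≤ i) (hik : i ≤ k + 1) :
    col k w i ∈ L i := by
  have h := getE_col (length_Y hw) (i := k + 1 - i) (by omega)
  have := getE_mem_Y hw (by omega) h
  rwa [show k + 1 - (k + 1 - i) = i by omega] at this

/-- arcs which do not wrap around -/
lemma nowrap (hab : a ≠ b) {k : ℕ} {w : List ℕ} (hw : w ∈ Y a b L k) {s t : ℕ} (ht : 1 ≤ t)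
    (hs : s + 2 * t ≤ k + 2) : ¬ ∀ j < t, col k w (s + j) = col k w (s + t + j) := by
  intro h
  have hlen := length_Y hw
  have hd := drop_Y hw (k + 2 - (s + 2 * t)) (by omega)
  apply nsq_Y hab hd ht
  refine ⟨by rw [List.length_drop]; omega, ?_⟩
  apply List.ext_getElem?
  intro i
  rw [List.getElem?_take, List.getElem?_take]
  by_cases hi : i < t
  · rw [if_pos hi, if_pos hi, List.getElem?_drop, List.getElem?_drop, List.getElem?_drop,
      getE_col hlen (by omega), getE_col hlen (by omega)]
    have := h (t - 1 - i) (by omega)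
    rw [show k + 1 - (k + 2 - (s + 2 * t) + i) = s + t + (t - 1 - i) by omega,
      show k + 1 - (k + 2 - (s + 2 * t) + (t + i)) = s + (t - 1 - i) by omega, this]
  · rw [if_neg hi, if_neg hi]

lemma noab_col {k : ℕ} {w : List ℕ} (hw : w ∈ Y a b L k) {i : ℕ} (hi : 1 ≤ i) (hik : i + 1 ≤ k + 1)
    (h1 : col k w i = a) (h2 : col k w (i + 1) = b) : False := by
  have hlen := length_Y hw
  apply noab_Y hw (i := k + 1 - (i + 1)) (by omega)
  · rw [getE_col hlen (by omega), show k + 1 - (k + 1 - (i + 1)) = i + 1 by omega, h2]
  · rw [getE_col hlen (by omega), show k + 1 - (k + 1 - (i + 1) + 1) = i by omega, h1]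

/-- short cycles -/
lemma cyc_small (n : ℕ) (hn : 3 ≤ n) (hn' : n ≤ 10) (L : ℕ → Finset ℕ) (hL : ∀ i, 4 ≤ (L i).card) :
    ∃ c : ℕ → ℕ, (∀ i < n, c i ∈ L i) ∧
      ∀ s < n, ∀ t, 1 ≤ t → 2 * t ≤ n → ¬ ∀ j < t, c ((s + j) % n) = c ((s + t + j) % n) := by
  classical
  obtain ⟨k, rfl⟩ : ∃ k, n = k + 2 := ⟨n - 2, by omega⟩
  obtain ⟨a, ha⟩ : (L 0).Nonempty := by
    rw [← card_pos]; have := hL 0; omega
  obtain ⟨b, hb⟩ : ((L 1).erase a).Nonempty := by
    rw [← card_pos]; have := hL 1; have := pred_card_le_card_erase (s := L 1) (a := a); omega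
  rw [mem_erase] at hb
  have hab : a ≠ b := fun h => hb.1 h.symm
  set L' : ℕ → Finset ℕ := fun i => (L i).erase a with hL'
  have hW := small (L := L') hab (fun j _ => ⟨by
      have := hL (j + 2); have := pred_card_le_card_erase (s := L (j + 2)) (a := a)
      simp only [hL']; omega, by simp [hL']⟩) k (by omega)
  obtain ⟨w, hw⟩ : (Y a b L' k).Nonempty := by
    by_contra hne
    rw [not_nonempty_iff_eq_empty] at hne
    unfold W at hW
    rw [hne] at hW
    simp at hW
  have c0 := col_zero hw
  have c1 := col_one hw
  have cne : ∀ i, 1 ≤ i → i < k + 2 → col k w i ≠ a := by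
    intro i h1 h2
    rcases Nat.lt_or_ge i 2 with h | h
    · obtain rfl : i = 1 := by omega
      rw [c1]; exact hab.symm
    · have := col_mem hw h (by omega)
      rw [hL'] at this
      exact (mem_erase.mp this).1
  refine ⟨col k w, ?_, ?_⟩
  · intro i hi
    rcases Nat.lt_or_ge i 2 with h | h
    · interval_cases i
      · rw [c0]; exact ha
      · rw [c1]; exact hb.2
    · have := col_mem hw h (by omega)
      rw [hL'] at this
      exact (mem_erase.mp this).2
  · intro s hs t ht htn h
    rcases Nat.lt_or_ge (k + 2) (s + 2 * t) with hw2 | hw2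
    · -- the arc contains 0 (as position k+2)
      rcases Nat.lt_or_ge (k + 2 - s) t with h2 | h2
      · have := h (k + 2 - s) h2
        rw [show s + (k + 2 - s) = k + 2 by omega, Nat.mod_self, c0,
          show s + t + (k + 2 - s) = t + (k + 2) by omega, Nat.add_mod_right,
          Nat.mod_eq_of_lt (by omega)] at this
        exact cne t (by omega) (by omega) this.symm
      · have := h (k + 2 - s - t) (by omega)
        rw [show s + t + (k + 2 - s - t) = k + 2 by omega, Nat.mod_self, c0,
          Nat.mod_eq_of_lt (by omega)] at this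
        exact cne _ (by omega) (by omega) this
    · apply nowrap hab hw ht hw2
      intro j hj
      have := h j hj
      rwa [Nat.mod_eq_of_lt (by omega), Nat.mod_eq_of_lt (by omega)] at this

/-- long cycles -/
lemma cyc_large (n : ℕ) (hn : 11 ≤ n) (L : ℕ → Finset ℕ) (hL : ∀ i, 4 ≤ (L i).card) :
    ∃ c : ℕ → ℕ, (∀ i < n, c i ∈ L i) ∧
      ∀ s < n, ∀ t, 1 ≤ t → 2 * t ≤ n → ¬ ∀ j < t, c ((s + j) % n) = c ((s + t + j) % n) := by
  classical
  obtain ⟨m, rfl⟩ : ∃ m, n = m + 4 := ⟨n - 4, by omega⟩
  obtain ⟨a, ha⟩ : (L 0).Nonempty := by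
    rw [← card_pos]; have := hL 0; omega
  obtain ⟨b, hb⟩ : ((L 1).erase a).Nonempty := by
    rw [← card_pos]; have := hL 1; have := pred_card_le_card_erase (s := L 1) (a := a); omega
  rw [mem_erase] at hb
  have hab : a ≠ b := fun h => hb.1 h.symm
  set L' : ℕ → Finset ℕ := fun i => if i < 6 then (L i).erase a else L i with hL'
  have hsub : ∀ i, L' i ⊆ L i := by
    intro i
    simp only [hL']
    split_ifs
    · exact erase_subset _ _
    · exact Subset.refl _
  have hgood : Good a b L' := by
    refine ⟨hab, fun j hj => ?_, fun j hj => ?_⟩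
    · simp only [hL', if_pos (show j + 2 < 6 by omega)]
      refine ⟨?_, by simp⟩
      have := hL (j + 2); have := pred_card_le_card_erase (s := L (j + 2)) (a := a)
      omega
    · simp only [hL', if_neg (show ¬ j + 2 < 6 by omega)]
      exact hL _
  obtain ⟨w, hw, hhead, hT⟩ := close hgood (m := m) (by omega)
  have c0 := col_zero hw
  have c1 := col_one hw
  have hlen := length_Y hw
  refine ⟨col (m + 2) w, ?_, ?_⟩
  · intro i hi
    rcases Nat.lt_or_ge i 2 with h | h
    · interval_cases i
      · rw [c0]; exact ha
      · rw [c1]; exact hb.2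
    · exact hsub _ (col_mem hw h (by omega))
  · intro s hs t ht htn h
    rcases Nat.lt_or_ge (m + 4) (s + 2 * t) with hw2 | hw2
    · rcases Nat.eq_or_lt_of_le hw2 with he | he
      · -- the arc ends at 0
        have hm0 : (s + t + (t - 1)) % (m + 4) = 0 := by
          rw [show s + t + (t - 1) = m + 4 by omega, Nat.mod_self]
        rcases Nat.lt_or_ge t 2 with ht2 | ht2
        · obtain rfl : t = 1 := by omega
          have := h 0 (by omega)
          rw [Nat.mod_eq_of_lt (by omega), show s + 1 + 0 = m + 4 by omega, Nat.mod_self, c0,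
            show s + 0 = m + 3 by omega] at this
          apply hhead
          rw [List.head?_eq_getElem?, getE_col hlen (by omega)]
          simpa using this
        · apply (hT t ht2 (by omega)).1
          refine ⟨by rw [List.length_cons]; omega, ?_⟩
          apply List.ext_getElem?
          intro i
          rw [List.getElem?_take, List.getElem?_take]
          by_cases hi : i < t
          · rw [if_pos hi, if_pos hi, List.getElem?_drop,
              show t + i = (t + i - 1) + 1 by omega, List.getElem?_cons_succ,
              getE_col hlen (by omega)]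
            have h3 := h (t - 1 - i) (by omega)
            rw [Nat.mod_eq_of_lt (show s + (t - 1 - i) < m + 4 by omega)] at h3
            rw [show m + 2 + 1 - (t + i - 1) = s + (t - 1 - i) by omega, h3]
            rcases Nat.eq_zero_or_pos i with rfl | hi0
            · rw [List.getElem?_cons_zero, Nat.sub_zero, hm0, c0]
            · rw [show i = (i - 1) + 1 by omega, List.getElem?_cons_succ,
                getE_col hlen (by omega), Nat.mod_eq_of_lt (by omega)]
              congr 2
              omega
          · rw [if_neg hi, if_neg hi]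
      · -- the arc contains 0 and 1
        rcases lt_trichotomy (m + 4 - s + 1) t with h1 | h1 | h1
        · -- both in the first half
          have e1 := h (m + 4 - s) (by omega)
          have e2 := h (m + 4 - s + 1) (by omega)
          rw [show s + (m + 4 - s) = m + 4 by omega, Nat.mod_self, c0,
            show s + t + (m + 4 - s) = t + (m + 4) by omega, Nat.add_mod_right,
            Nat.mod_eq_of_lt (by omega)] at e1
          rw [show s + (m + 4 - s + 1) = 1 + (m + 4) by omega, Nat.add_mod_right,
            Nat.mod_eq_of_lt (by omega), c1,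
            show s + t + (m + 4 - s + 1) = (t + 1) + (m + 4) by omega, Nat.add_mod_right,
            Nat.mod_eq_of_lt (by omega)] at e2
          exact noab_col hw (by omega) (by omega) e1.symm e2.symm
        · -- 0 is the last of the first half
          have e1 := h (t - 1) (by omega)
          rw [show s + (t - 1) = m + 4 by omega, Nat.mod_self, c0,
            show s + t + (t - 1) = t + (m + 4) by omega, Nat.add_mod_right,
            Nat.mod_eq_of_lt (by omega)] at e1
          rcases Nat.lt_or_ge t 2 with ht2 | ht2
          · omega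
          apply (hT t ht2 (by omega)).2
          refine ⟨?_, ?_⟩
          · apply List.ext_getElem?
            intro i
            rw [List.getElem?_take, List.getElem?_take]
            by_cases hi : i < t - 1
            · rw [if_pos hi, if_pos hi, List.getElem?_drop, getE_col hlen (by omega),
                getE_col hlen (by omega)]
              have h3 := h (t - 2 - i) (by omega)
              rw [Nat.mod_eq_of_lt (show s + (t - 2 - i) < m + 4 by omega),
                show s + t + (t - 2 - i) = (t - 1 - i) + (m + 4) by omega, Nat.add_mod_right,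
                Nat.mod_eq_of_lt (by omega)] at h3
              rw [show m + 2 + 1 - i = s + (t - 2 - i) by omega, h3]
              congr 2
              omega
            · rw [if_neg hi, if_neg hi]
          · rw [getE_col hlen (by omega), show m + 2 + 1 - (m + 2 + 1 - t) = t by omega, e1]
        · rcases Nat.eq_or_lt_of_le (show t ≤ m + 4 - s + 1 by omega) with h2 | h2
          · omega
          rcases Nat.lt_or_ge (m + 4 - s) t with h4 | h4
          · omega
          -- both in the second half
          have e1 := h (m + 4 - s - t) (by omega)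
          have e2 := h (m + 4 - s - t + 1) (by omega)
          rw [show s + t + (m + 4 - s - t) = m + 4 by omega, Nat.mod_self, c0,
            Nat.mod_eq_of_lt (by omega)] at e1
          rw [show s + t + (m + 4 - s - t + 1) = 1 + (m + 4) by omega, Nat.add_mod_right,
            Nat.mod_eq_of_lt (show 1 < m + 4 by omega), c1, Nat.mod_eq_of_lt (by omega),
            ← Nat.add_assoc] at e2
          exact noab_col hw (by omega) (by omega) e1 e2
    · apply nowrap hab hw ht (by omega)
      intro j hj
      have := h j hj
      rwa [Nat.mod_eq_of_lt (by omega), Nat.mod_eq_of_lt (by omega)] at this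

theorem cyc (n : ℕ) (hn : 3 ≤ n) (L : ℕ → Finset ℕ) (hL : ∀ i, 4 ≤ (L i).card) :
    ∃ c : ℕ → ℕ, (∀ i < n, c i ∈ L i) ∧
      ∀ s < n, ∀ t, 1 ≤ t → 2 * t ≤ n → ¬ ∀ j < t, c ((s + j) % n) = c ((s + t + j) % n) := by
  rcases Nat.lt_or_ge 10 n with h | h
  · exact cyc_large n (by omega) L hL
  · exact cyc_small n hn h L hL

lemma fin_sub_one {n : ℕ} {u v : Fin n} (h : (u - v).val = 1) : u.val = (v.val + 1) % n := by
  rw [Fin.sub_def] at h
  simp only at h
  have hu := u.isLt
  have hv := v.isLt
  rcases Nat.lt_or_ge (n - v.val + u.val) n with h1 | h1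
  · rw [Nat.mod_eq_of_lt h1] at h
    rw [show v.val + 1 = n by omega, Nat.mod_self]
    omega
  · rw [Nat.mod_eq_sub_mod h1, Nat.mod_eq_of_lt (by omega)] at h
    rw [Nat.mod_eq_of_lt (by omega)]
    omega

lemma step_iff {n : ℕ} {u v : Fin n} (h : (SimpleGraph.cycleGraph n).Adj u v) :
    v.val = (u.val + 1) % n ∨ u.val = (v.val + 1) % n := by
  rw [SimpleGraph.cycleGraph_adj'] at h
  rcases h with h | h
  · exact Or.inr (fin_sub_one h)
  · exact Or.inl (fin_sub_one h)

lemma succ_inj {n x y : ℕ} (hx : x < n) (hy : y < n) (h : (x + 1) % n = (y + 1) % n) : x = y := by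
  rcases Nat.lt_or_ge (x + 1) n with h1 | h1 <;> rcases Nat.lt_or_ge (y + 1) n with h2 | h2
  · rw [Nat.mod_eq_of_lt h1, Nat.mod_eq_of_lt h2] at h; omega
  · rw [Nat.mod_eq_of_lt h1, show y + 1 = n by omega, Nat.mod_self] at h; omega
  · rw [Nat.mod_eq_of_lt h2, show x + 1 = n by omega, Nat.mod_self] at h; omega
  · omega

/-- a sequence of pairwise distinct vertices, consecutive ones adjacent, goes around -/
lemma go {n : ℕ} (f : ℕ → Fin n) (m : ℕ) (hadj : ∀ i < m, (SimpleGraph.cycleGraph n).Adj (f i) (f (i + 1)))
    (hinj : ∀ i ≤ m, ∀ j ≤ m, f i = f j → i = j) :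
    (∀ i < m, (f (i + 1)).val = ((f i).val + 1) % n) ∨
    (∀ i < m, (f i).val = ((f (i + 1)).val + 1) % n) := by
  rcases Nat.eq_zero_or_pos m with rfl | hm
  · left; intro i hi; omega
  rcases step_iff (hadj 0 hm) with h0 | h0
  · left
    intro i
    induction i with
    | zero => intro _; exact h0
    | succ i ih =>
      intro hi
      have h1 := ih (by omega)
      rcases step_iff (hadj (i + 1) hi) with h2 | h2
      · exact h2
      · exfalso
        have h3 := succ_inj (f i).isLt (f (i + 1 + 1)).isLt (h1.symm.trans h2)
        have := hinj i (by omega) (i + 1 + 1) (by omega) (Fin.ext h3)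
        omega
  · right
    intro i
    induction i with
    | zero => intro _; exact h0
    | succ i ih =>
      intro hi
      have h1 := ih (by omega)
      rcases step_iff (hadj (i + 1) hi) with h2 | h2
      · exfalso
        have h3 : f i = f (i + 1 + 1) := Fin.ext (h1.trans h2.symm)
        have := hinj i (by omega) (i + 1 + 1) (by omega) h3
        omega
      · exact h2

lemma go_val {n : ℕ} (f : ℕ → Fin n) (m : ℕ) (h : ∀ i < m, (f (i + 1)).val = ((f i).val + 1) % n) :
    ∀ i ≤ m, (f i).val = ((f 0).val + i) % n := by
  intro i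
  induction i with
  | zero => intro _; rw [Nat.add_zero, Nat.mod_eq_of_lt (f 0).isLt]
  | succ i ih =>
    intro hi
    rw [h i (by omega), ih (by omega), Nat.mod_add_mod, Nat.add_assoc]

theorem final :
    ∀ n : ℕ, 3 ≤ n →
      ∀ L : Fin n → Finset ℕ, (∀ v, 4 ≤ (L v).card) →
        ∃ c : Fin n → ℕ, (∀ v, c v ∈ L v) ∧
          ∀ (u v : Fin n) (p : (SimpleGraph.cycleGraph n).Walk u v),
            p.IsPath → Even p.support.length →
              (p.support.map c).take (p.support.length / 2) ≠
                (p.support.map c).drop (p.support.length / 2) := by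
  intro n hn L hL
  have hn0 : 0 < n := by omega
  obtain ⟨C, hC, hC2⟩ := cyc n hn (fun i => L ⟨i % n, Nat.mod_lt _ hn0⟩) (fun i => hL _)
  refine ⟨fun v => C v.val, ?_, ?_⟩
  · intro v
    have := hC v.val v.isLt
    simp only [Nat.mod_eq_of_lt v.isLt] at this
    exact this
  · intro u v p hp he heq
    obtain ⟨t, ht⟩ := he
    have hlen : p.support.length = p.length + 1 := p.length_support
    have hcard : p.support.length ≤ n := by
      have := (hp.support_nodup).length_le_card
      rwa [Fintype.card_fin] at this
    have ht1 : 1 ≤ t := by omega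
    rw [show p.support.length / 2 = t by omega] at heq
    have hget : ∀ i < t, C (p.getVert i).val = C (p.getVert (t + i)).val := by
      intro i hi
      have h1 := congrArg (fun l : List ℕ => l[i]?) heq
      simp only [List.getElem?_take, if_pos hi, List.getElem?_drop, List.getElem?_map] at h1
      rw [List.getElem?_eq_getElem (by omega), List.getElem?_eq_getElem (by omega),
        SimpleGraph.Walk.support_getElem_eq_getVert, SimpleGraph.Walk.support_getElem_eq_getVert]
        at h1
      simpa using h1
    have hinj : ∀ i ≤ p.length, ∀ j ≤ p.length, p.getVert i = p.getVert j → i = j :=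
      fun i hi j hj h => hp.getVert_injOn (by simpa using hi) (by simpa using hj) h
    rcases go p.getVert p.length (fun i hi => p.adj_getVert_succ hi) hinj with h | h
    · have hv := go_val _ _ h
      apply hC2 (p.getVert 0).val (p.getVert 0).isLt t ht1 (by omega)
      intro j hj
      have := hget j hj
      rwa [hv j (by omega), hv (t + j) (by omega), ← Nat.add_assoc] at this
    · set g : ℕ → Fin n := fun i => p.getVert (p.length - i) with hg
      have hv := go_val g p.length (fun i hi => by
        simp only [hg]
        have := h (p.length - (i + 1)) (by omega)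
        rwa [show p.length - (i + 1) + 1 = p.length - i by omega] at this)
      apply hC2 (g 0).val (g 0).isLt t ht1 (by omega)
      intro j hj
      have := hget (t - 1 - j) (by omega)
      rw [Nat.add_assoc, ← hv j (by omega), ← hv (t + j) (by omega)]
      simp only [hg]
      rw [show p.length - j = t + (t - 1 - j) by omega,
        show p.length - (t + j) = t - 1 - j by omega]
      exact this.symm

end H112NR
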