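import Pool.Agent.H112R3.NR.Growth

set_option autoImplicit false

open Finset

namespace H112NR

variable {a b : ℕ} {L : ℕ → Finset ℕ}

lemma small (hab : a ≠ b) (hL : ∀ j, j < 8 → 3 ≤ (L (j + 2)).card ∧ a ∉ L (j + 2)) :
    ∀ k ≤ 8, 0 < W a b L k := by
  have hh : ∀ k ≤ 8, ∀ w ∈ Y a b L k, w.head? ≠ some a := by
    intro k hk
    refine head_ne hab (fun j h1 h2 => ?_)
    obtain ⟨i, rfl⟩ : ∃ i, j = i + 1 := ⟨j - 1, by omega⟩
    exact (hL i (by omega)).2
  have g : ∀ k, k < 8 → 73 / 61 * W a b L k ≤ W a b L (k + 1)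
      + ∑ p ∈ Icc 4 ((k + 2) / 2), W a b L (k + 1 - p) :=
    fun k hk => growthZ hab (hL k hk).1 (hL k hk).2 (hh k (by omega))
  have w0 := W_zero_pos (L := L) hab
  have g0 := g 0 (by omega)
  have g1 := g 1 (by omega)
  have g2 := g 2 (by omega)
  have g3 := g 3 (by omega)
  have g4 := g 4 (by omega)
  have g5 := g 5 (by omega)
  have g6 := g 6 (by omega)
  have g7 := g 7 (by omega)
  norm_num at g0 g1 g2 g3 g4 g5 g6 g7
  have w1 : 0 < W a b L 1 := by linarith only [w0, g0]
  have w2 : 0 < W a b L 2 := by linarith only [w1, g1]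
  have w3 : 0 < W a b L 3 := by linarith only [w2, g2]
  have w4 : 0 < W a b L 4 := by linarith only [w3, g3]
  have w5 : 0 < W a b L 5 := by linarith only [w4, g4]
  have w6 : 0 < W a b L 6 := by linarith only [w5, g5]
  have w7 : 0 < W a b L 7 := by linarith only [w3, g3, g4, g5, g6]
  have w8 : 0 < W a b L 8 := by linarith only [w3, w4, g3, g4, g5, g6, g7]
  clear g g0 g1 g2 g3 g4 g5 g6 g7 hh
  intro k hk
  interval_cases k
  · exact w0
  · exact w1
  · exact w2
  · exact w3
  · exact w4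
  · exact w5
  · exact w6
  · exact w7
  · exact w8

lemma geo (q : ℕ) : ∀ N : ℕ, ∑ p ∈ Icc q N, (1 / 2 : ℚ) ^ p ≤ 2 * (1 / 2) ^ q - (if q ≤ N then (1 / 2) ^ N else 0) := by
  intro N
  induction N with
  | zero =>
    rcases Nat.eq_zero_or_pos q with rfl | h
    · norm_num
    · rw [Icc_eq_empty (by omega), if_neg (by omega)]; simp
  | succ N ih =>
    rcases Nat.lt_or_ge (N + 1) q with h | h
    · rw [Icc_eq_empty (by omega), if_neg (by omega)]; simp
    · rw [sum_Icc_succ_top h, if_pos h]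
      rcases Nat.lt_or_ge N q with h' | h'
      · obtain rfl : q = N + 1 := by omega
        rw [Icc_eq_empty (by omega)]
        simp
        linarith
      · rw [if_pos h'] at ih
        have : (1 / 2 : ℚ) ^ N = 2 * (1 / 2) ^ (N + 1) := by rw [pow_succ]; ring
        linarith

lemma geo' (q N : ℕ) : ∑ p ∈ Icc q N, (1 / 2 : ℚ) ^ p ≤ 2 * (1 / 2) ^ q := by
  refine le_trans (geo q N) ?_
  split_ifs
  · have : (0 : ℚ) ≤ (1 / 2) ^ N := by positivity
    linarith
  · linarith

/-- hypotheses on the lists in the main case -/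
structure Good (a b : ℕ) (L : ℕ → Finset ℕ) : Prop where
  hab : a ≠ b
  z : ∀ j, j < 4 → 3 ≤ (L (j + 2)).card ∧ a ∉ L (j + 2)
  n : ∀ j, 4 ≤ j → 4 ≤ (L (j + 2)).card

lemma base_pos (h : Good a b L) : 0 < W a b L 3 ∧ 73 / 61 * W a b L 3 ≤ W a b L 4 := by
  have hh : ∀ k ≤ 4, ∀ w ∈ Y a b L k, w.head? ≠ some a := by
    intro k hk
    refine head_ne h.hab (fun j h1 h2 => ?_)
    obtain ⟨i, rfl⟩ : ∃ i, j = i + 1 := ⟨j - 1, by omega⟩
    exact (h.z i (by omega)).2
  have g : ∀ k, k < 4 → 73 / 61 * W a b L k ≤ W a b L (k + 1)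
      + ∑ p ∈ Icc 4 ((k + 2) / 2), W a b L (k + 1 - p) :=
    fun k hk => growthZ h.hab (h.z k hk).1 (h.z k hk).2 (hh k (by omega))
  have w0 := W_zero_pos (L := L) h.hab
  have g0 := g 0 (by omega)
  have g1 := g 1 (by omega)
  have g2 := g 2 (by omega)
  have g3 := g 3 (by omega)
  norm_num at g0 g1 g2 g3
  constructor <;> linarith

lemma pow_bound (k0 : ℕ) (f : ℕ → ℚ) (k : ℕ) (h : ∀ j, k0 ≤ j → j < k → 2 * f j ≤ f (j + 1)) :
    ∀ d, k0 + d ≤ k → f (k - d) ≤ f k * (1 / 2) ^ d := by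
  intro d
  induction d with
  | zero => intro _; simp
  | succ d ih =>
    intro hd
    have h1 := ih (by omega)
    have h2 := h (k - (d + 1)) (by omega) (by omega)
    rw [show k - (d + 1) + 1 = k - d by omega] at h2
    rw [pow_succ]
    linarith

lemma dbl (h : Good a b L) : ∀ k, 4 ≤ k → 2 * W a b L k ≤ W a b L (k + 1) := by
  intro k
  induction k using Nat.strong_induction_on with
  | _ k ih =>
    intro hk
    have g := growth (L := L) h.hab (k := k) (h.n k hk)
    obtain ⟨w3, g3⟩ := base_pos h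
    have g4 := growth (L := L) h.hab (k := 4) (h.n 4 (by omega))
    have g5 := growth (L := L) h.hab (k := 5) (h.n 5 (by omega))
    norm_num at g4 g5
    rcases Nat.lt_or_ge k 7 with hk7 | hk7
    · interval_cases k
      · norm_num at g; linarith
      · norm_num at g; linarith
      · norm_num at g; linarith
    · have hb := pow_bound 4 (W a b L) k (fun j h1 h2 => ih j h2 h1)
      have hs : ∑ p ∈ Icc 4 ((k + 2) / 2), W a b L (k + 1 - p) ≤ W a b L k * (1 / 4) := by
        calc ∑ p ∈ Icc 4 ((k + 2) / 2), W a b L (k + 1 - p)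
            ≤ ∑ p ∈ Icc 4 ((k + 2) / 2), (2 * W a b L k) * (1 / 2) ^ p := by
              refine sum_le_sum (fun p hp => ?_)
              rw [mem_Icc] at hp
              have := hb (p - 1) (by omega)
              rw [show k - (p - 1) = k + 1 - p by omega] at this
              obtain ⟨q, rfl⟩ : ∃ q, p = q + 1 := ⟨p - 1, by omega⟩
              rw [pow_succ]
              simp only [Nat.add_sub_cancel] at this
              linarith
          _ = (2 * W a b L k) * ∑ p ∈ Icc 4 ((k + 2) / 2), (1 / 2 : ℚ) ^ p := by rw [mul_sum]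
          _ ≤ (2 * W a b L k) * (2 * (1 / 2) ^ 4) := by
              refine mul_le_mul_of_nonneg_left (geo' _ _) ?_
              have := W_nonneg (a := a) (b := b) (L := L) k
              linarith
          _ = W a b L k * (1 / 4) := by ring
      have := W_nonneg (a := a) (b := b) (L := L) k
      linarith

lemma pos (h : Good a b L) : ∀ k, 4 ≤ k → 0 < W a b L k := by
  intro k hk
  induction k, hk using Nat.le_induction with
  | base => obtain ⟨w3, g3⟩ := base_pos h; linarith
  | succ k hk ih => have := dbl h k hk; linarith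

lemma Wb (h : Good a b L) {k : ℕ} (d : ℕ) (hd : 4 + d ≤ k) :
    W a b L (k - d) ≤ W a b L k * (1 / 2) ^ d :=
  pow_bound 4 (W a b L) k (fun j h1 _ => dbl h j h1) d hd

/-- sums of `W` with geometric decay -/
lemma Wsum (h : Good a b L) {k : ℕ} (s q N : ℕ) (hq : s ≤ q) (hN : ∀ p, q ≤ p → p ≤ N → 4 + (p - s) ≤ k) :
    ∑ p ∈ Icc q N, W a b L (k + s - p) ≤ W a b L k * (2 * (1 / 2) ^ (q - s)) := by
  calc ∑ p ∈ Icc q N, W a b L (k + s - p)
      ≤ ∑ p ∈ Icc q N, (W a b L k * 2 ^ s) * (1 / 2) ^ p := by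
        refine sum_le_sum (fun p hp => ?_)
        rw [mem_Icc] at hp
        have := Wb h (p - s) (hN p hp.1 hp.2)
        rw [show k - (p - s) = k + s - p by have := hN p hp.1 hp.2; omega] at this
        refine le_trans this (le_of_eq ?_)
        obtain ⟨q', rfl⟩ : ∃ q', p = s + q' := ⟨p - s, by omega⟩
        rw [Nat.add_sub_cancel_left, pow_add]
        have : (2 : ℚ) ^ s * (1 / 2) ^ s = 1 := by rw [← mul_pow]; norm_num
        calc W a b L k * (1 / 2) ^ q' = W a b L k * ((2 : ℚ) ^ s * (1 / 2) ^ s) * (1 / 2) ^ q' := by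
              rw [this, mul_one]
          _ = _ := by ring
    _ = (W a b L k * 2 ^ s) * ∑ p ∈ Icc q N, (1 / 2 : ℚ) ^ p := by rw [mul_sum]
    _ ≤ (W a b L k * 2 ^ s) * (2 * (1 / 2) ^ q) := by
        refine mul_le_mul_of_nonneg_left (geo' _ _) ?_
        have := W_nonneg (a := a) (b := b) (L := L) k
        positivity
    _ = W a b L k * (2 * (1 / 2) ^ (q - s)) := by
        obtain ⟨q', rfl⟩ : ∃ q', q = s + q' := ⟨q - s, by omega⟩
        rw [Nat.add_sub_cancel_left, pow_add]
        have : (2 : ℚ) ^ s * (1 / 2) ^ s = 1 := by rw [← mul_pow]; norm_num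
        calc W a b L k * 2 ^ s * (2 * ((1 / 2) ^ s * (1 / 2) ^ q'))
            = W a b L k * ((2 : ℚ) ^ s * (1 / 2) ^ s) * (2 * (1 / 2) ^ q') := by ring
          _ = _ := by rw [this, mul_one]

end H112NR
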