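import Pool.Agent.H112R3.NR.Local

set_option autoImplicit false

open Finset

namespace H112NR

variable {a b : ℕ} {L : ℕ → Finset ℕ}

/-- total potential of the words of length `k+2` -/
noncomputable def W (a b : ℕ) (L : ℕ → Finset ℕ) (k : ℕ) : ℚ := ∑ w ∈ Y a b L k, V a w

lemma W_nonneg (k : ℕ) : 0 ≤ W a b L k := sum_nonneg (fun w _ => (V_pos w).le)

lemma V_cons (c : ℕ) (w : List ℕ) :
    V a (c :: w) = vV (ty (c :: w)) - (if decide (c = a) = true then 30 else 0) := by
  unfold V; simp

lemma V0_cons (c : ℕ) (w : List ℕ) :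
    V0 a (c :: w) = if decide (c = a) = true then 0 else vV (ty (c :: w)) := by
  unfold V0; simp

lemma vV_cases (i : ℕ) : vV i = 88 ∨ vV i = 61 ∨ vV i = 73 ∨ vV i = 100 := by
  rcases i with _ | _ | _ | _ | i <;> simp [vV]

lemma vF_cases (i : ℕ) : vF i = 134 ∨ vF i = 73 ∨ vF i = 100 ∨ vF i = 161 := by
  rcases i with _ | _ | _ | _ | i <;> simp [vF]

lemma oneV {k : ℕ} {w : List ℕ} (hw : w ∈ Y a b L k) {S : Finset ℕ} (hS : 4 ≤ S.card) :
    23 / 10 * V a w ≤
      ∑ c ∈ S, (open Classical in if okc a b w c then V a (c :: w) else 0) := by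
  classical
  have h := one (a := a) (b := b) (L := L)
    (fun i β => vV i - (if β = true then 30 else 0)) 30 (by norm_num)
    (by intro i β; rcases vV_cases i with h | h | h | h <;> rw [h] <;> split_ifs <;> norm_num)
    (by intro i; rcases vV_cases i with h | h | h | h <;> rw [h] <;> simp [vV] <;> norm_num)
    (by intro i; simp) hw S
  simp only [V_cons]
  refine le_trans ?_ h
  have hc : (4 : ℚ) ≤ S.card := by exact_mod_cast hS
  clear h
  generalize (S.card : ℚ) = n at hc ⊢
  unfold V
  rcases ty_lt w with e | e | e | e <;> simp only [e, dY, dX, dS, vV] <;> split_ifs <;>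
    first | linarith | (norm_num; linarith) | simp_all

lemma oneF {k : ℕ} {w : List ℕ} (hw : w ∈ Y a b L k) {S : Finset ℕ} (hS : 4 ≤ S.card) :
    296 / 100 * V a w + (if w.head? = some a then 0 else 73) ≤
      ∑ c ∈ S, (open Classical in if okc a b w c then F (c :: w) else 0) := by
  classical
  have h := one (a := a) (b := b) (L := L)
    (fun i _ => vF i) 0 (by norm_num)
    (by intro i β; rcases vF_cases i with h | h | h | h <;> simp only [h] <;> norm_num)
    (by intro i; rcases vF_cases i with h | h | h | h <;> simp only [h] <;> simp [vF] <;> norm_num)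
    (by intro i; simp) hw S
  refine le_trans ?_ h
  have hc : (4 : ℚ) ≤ S.card := by exact_mod_cast hS
  clear h
  generalize (S.card : ℚ) = n at hc ⊢
  unfold V
  rcases ty_lt w with e | e | e | e <;> simp only [e, dY, dX, dS, vV, vF] <;> split_ifs <;>
    first | linarith | (norm_num; linarith) | simp_all

lemma oneV0 {k : ℕ} {w : List ℕ} (hw : w ∈ Y a b L k) {S : Finset ℕ} (hS : 4 ≤ S.card) :
    F w ≤ ∑ c ∈ S, (open Classical in if okc a b w c then V0 a (c :: w) else 0) := by
  classical
  have h := one (a := a) (b := b) (L := L)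
    (fun i β => if β = true then 0 else vV i) 100 (by norm_num)
    (by intro i β; rcases vV_cases i with h | h | h | h <;> simp only [h] <;> split_ifs <;> norm_num)
    (by intro i; rcases vV_cases i with h | h | h | h <;> simp only [h] <;> simp [vV] <;> norm_num)
    (by intro i; rcases vV_cases i with h | h | h | h <;> simp only [h] <;> simp <;> norm_num) hw S
  simp only [V0_cons]
  refine le_trans ?_ h
  have hc : (4 : ℚ) ≤ S.card := by exact_mod_cast hS
  clear h
  generalize (S.card : ℚ) = n at hc ⊢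
  unfold F
  rcases ty_lt w with e | e | e | e <;> simp only [e, dY, dX, dS, vV, vF] <;> split_ifs <;>
    first | linarith | (norm_num; linarith) | simp_all

/-- the case of lists of size three not containing `a` -/
lemma oneZ {k : ℕ} {w : List ℕ} (hw : w ∈ Y a b L k) (hwa : w.head? ≠ some a)
    {S : Finset ℕ} (hS : 3 ≤ S.card) (haS : a ∉ S) :
    73 / 61 * V a w ≤
      ∑ c ∈ S, (open Classical in if okc a b w c then V a (c :: w) else 0) := by
  classical
  have h := one (a := a) (b := b) (L := L)
    (fun i _ => vV i) 0 (by norm_num)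
    (by intro i β; rcases vV_cases i with h | h | h | h <;> simp only [h] <;> norm_num)
    (by intro i; rcases vV_cases i with h | h | h | h <;> simp only [h] <;> simp [vV] <;> norm_num)
    (by intro i; simp) hw S
  have e : ∑ c ∈ S, (if okc a b w c then V a (c :: w) else 0) =
      ∑ c ∈ S, (if okc a b w c then vV (ty (c :: w)) else 0) := by
    refine sum_congr rfl (fun c hc => ?_)
    have hca : c ≠ a := fun h => haS (h ▸ hc)
    rw [V_cons]; simp [hca]
  rw [e]
  refine le_trans ?_ h
  have hc : (3 : ℚ) ≤ S.card := by exact_mod_cast hS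
  clear h
  generalize (S.card : ℚ) = n at hc ⊢
  unfold V
  rcases ty_lt w with e | e | e | e <;> simp only [e, dY, dX, dS, vV, if_neg hwa] <;>
    norm_num <;> linarith

lemma V_congr (w w' : List ℕ) (h : ty w = ty w') (h' : w.head? = w'.head?) : V a w = V a w' := by
  unfold V; rw [h, h']
lemma V0_congr (w w' : List ℕ) (h : ty w = ty w') (h' : w.head? = w'.head?) : V0 a w = V0 a w' := by
  unfold V0; rw [h, h']
lemma F_congr (w w' : List ℕ) (h : ty w = ty w') (_ : w.head? = w'.head?) : F w = F w' := by
  unfold F; rw [h]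

lemma growth (hab : a ≠ b) {k : ℕ} (hL : 4 ≤ (L (k + 2)).card) :
    23 / 10 * W a b L k ≤ W a b L (k + 1) + ∑ p ∈ Icc 4 ((k + 2) / 2), W a b L (k + 1 - p) := by
  have h := step (L := L) hab k (V a) (fun w => (V_pos w).le) V_congr
  refine le_trans ?_ h
  unfold W
  rw [mul_sum]
  exact sum_le_sum (fun w hw => oneV hw hL)

lemma growthZ (hab : a ≠ b) {k : ℕ} (hL : 3 ≤ (L (k + 2)).card) (ha : a ∉ L (k + 2))
    (hk : ∀ w ∈ Y a b L k, w.head? ≠ some a) :
    73 / 61 * W a b L k ≤ W a b L (k + 1) + ∑ p ∈ Icc 4 ((k + 2) / 2), W a b L (k + 1 - p) := by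
  have h := step (L := L) hab k (V a) (fun w => (V_pos w).le) V_congr
  refine le_trans ?_ h
  unfold W
  rw [mul_sum]
  exact sum_le_sum (fun w hw => oneZ hw (hk w hw) hL ha)

lemma head_ne (hab : a ≠ b) {k : ℕ} (ha : ∀ j, 1 ≤ j → j ≤ k → a ∉ L (j + 1)) :
    ∀ w ∈ Y a b L k, w.head? ≠ some a := by
  intro w hw h
  rw [List.head?_eq_getElem?] at h
  rcases Nat.eq_zero_or_pos k with rfl | hk
  · rw [getb_Y hw] at h
    exact hab (Option.some.inj h).symm
  · have := getE_mem_Y hw hk h
    exact ha k hk le_rfl (by simpa using this)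

lemma W_zero_pos (hab : a ≠ b) : 0 < W a b L 0 := by
  unfold W
  rw [Y, sum_singleton]
  exact V_pos _

end H112NR
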