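import Pool.Agent.H112R3.NR.Basic

set_option autoImplicit false

open Finset

namespace H112NR

variable {a b : ℕ} {L : ℕ → Finset ℕ}

/-- table of weights: growth potential -/
def vV : ℕ → ℚ
  | 1 => 88 | 2 => 61 | 3 => 73 | _ => 100
def vF : ℕ → ℚ
  | 1 => 134 | 2 => 73 | 3 => 100 | _ => 161

noncomputable def V (a : ℕ) (w : List ℕ) : ℚ := vV (ty w) - (if w.head? = some a then 30 else 0)
noncomputable def F (w : List ℕ) : ℚ := vF (ty w)
noncomputable def V0 (a : ℕ) (w : List ℕ) : ℚ := if w.head? = some a then 0 else vV (ty w)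

lemma ty_lt (w : List ℕ) : ty w = 0 ∨ ty w = 1 ∨ ty w = 2 ∨ ty w = 3 := by
  rcases w with _ | ⟨z, _ | ⟨y, _ | ⟨x, _ | ⟨u, _ | ⟨v, r⟩⟩⟩⟩⟩ <;> simp only [ty] <;>
    (try split_ifs) <;> simp

lemma V_pos (w : List ℕ) : 0 < V a w := by
  unfold V
  rcases ty_lt w with h | h | h | h <;> rw [h] <;> simp only [vV] <;> split_ifs <;> norm_num

lemma V0_nonneg (w : List ℕ) : 0 ≤ V0 a w := by
  unfold V0
  rcases ty_lt w with h | h | h | h <;> rw [h] <;> simp only [vV] <;> split_ifs <;> norm_num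

lemma F_pos (w : List ℕ) : 0 < F w := by
  unfold F
  rcases ty_lt w with h | h | h | h <;> rw [h] <;> simp only [vF] <;> norm_num

lemma V0_le_V (w : List ℕ) : V0 a w ≤ V a w := by
  unfold V0 V
  rcases ty_lt w with h | h | h | h <;> rw [h] <;> simp only [vV] <;> split_ifs <;> norm_num

lemma F_le_V (w : List ℕ) : F w ≤ 236 / 100 * V a w := by
  unfold F V
  rcases ty_lt w with h | h | h | h <;> rw [h] <;> simp only [vV, vF] <;> split_ifs <;> norm_num

lemma sum4 (S : Finset ℕ) (h : ℕ → ℚ) (M : ℚ) (t1 t2 t3 t4 : ℕ) (d1 d2 d3 d4 : ℚ)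
    (h1 : 0 ≤ d1) (h2 : 0 ≤ d2) (h3 : 0 ≤ d3) (h4 : 0 ≤ d4)
    (hp : ∀ c ∈ S, M - (if c = t1 then d1 else 0) - (if c = t2 then d2 else 0)
      - (if c = t3 then d3 else 0) - (if c = t4 then d4 else 0) ≤ h c) :
    M * S.card - d1 - d2 - d3 - d4 ≤ ∑ c ∈ S, h c := by
  have hone : ∀ (t : ℕ) (d : ℚ), 0 ≤ d → ∑ c ∈ S, (if c = t then d else 0) ≤ d := by
    intro t d hd
    rw [sum_ite_eq']
    split_ifs
    · exact le_rfl
    · exact hd
  calc M * S.card - d1 - d2 - d3 - d4
      ≤ M * S.card - ∑ c ∈ S, (if c = t1 then d1 else 0) - ∑ c ∈ S, (if c = t2 then d2 else 0)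
        - ∑ c ∈ S, (if c = t3 then d3 else 0) - ∑ c ∈ S, (if c = t4 then d4 else 0) := by
        have := hone t1 d1 h1
        have := hone t2 d2 h2
        have := hone t3 d3 h3
        have := hone t4 d4 h4
        linarith
    _ = ∑ c ∈ S, (M - (if c = t1 then d1 else 0) - (if c = t2 then d2 else 0)
      - (if c = t3 then d3 else 0) - (if c = t4 then d4 else 0)) := by
        simp only [sum_sub_distrib, sum_const, nsmul_eq_mul]
        ring
    _ ≤ ∑ c ∈ S, h c := sum_le_sum hp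

/-! explicit form of the conditions -/

lemma sq1 {c z : ℕ} {r : List ℕ} : sq 1 (c :: z :: r) ↔ c = z := by
  simp [sq]

lemma sq2 {c z y x : ℕ} {r : List ℕ} : sq 2 (c :: z :: y :: x :: r) ↔ c = y ∧ z = x := by
  simp [sq]

lemma sq2' {c z y : ℕ} : ¬ sq 2 [c, z, y] := by
  simp [sq]

lemma sq3 {c z y x u v : ℕ} {r : List ℕ} :
    sq 3 (c :: z :: y :: x :: u :: v :: r) ↔ c = x ∧ z = u ∧ y = v := by
  simp [sq]

lemma sq3' {w : List ℕ} (h : w.length < 6) : ¬ sq 3 w := by
  intro h'; have := h'.1; omega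

/-! the one step inequality -/

def dY (φ : ℕ → Bool → ℚ) (T : ℕ) : ℚ := if T = 3 then φ 0 false else φ 0 false - φ 3 false
def dX (φ : ℕ → Bool → ℚ) (T : ℕ) : ℚ :=
  if T = 0 then φ 0 false - φ 1 false else if T = 1 then φ 0 false - φ 2 false
  else if T = 2 then φ 0 false else 0
def dS (φ : ℕ → Bool → ℚ) (δ : ℚ) (fl : Prop) [Decidable fl] : ℚ := if fl then φ 0 false else δ

lemma shape {k : ℕ} {w : List ℕ} (hw : w ∈ Y a b L k) :
    (∃ z y, w = [z, y]) ∨ (∃ z y x, w = [z, y, x]) ∨ (∃ z y x u, w = [z, y, x, u]) ∨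
      (∃ z y x u v r, w = z :: y :: x :: u :: v :: r) := by
  have hlen := length_Y hw
  rcases w with _ | ⟨z, _ | ⟨y, _ | ⟨x, _ | ⟨u, _ | ⟨v, r⟩⟩⟩⟩⟩
  · simp at hlen
  · simp at hlen
  · exact Or.inl ⟨_, _, rfl⟩
  · exact Or.inr (Or.inl ⟨_, _, _, rfl⟩)
  · exact Or.inr (Or.inr (Or.inl ⟨_, _, _, _, rfl⟩))
  · exact Or.inr (Or.inr (Or.inr ⟨_, _, _, _, _, _, rfl⟩))

lemma aux (φ : ℕ → Bool → ℚ) (h0 : ∀ i β, 0 ≤ φ i β)
    (hM : ∀ i, φ i false ≤ φ 0 false) {k : ℕ} {w : List ℕ} (hw : w ∈ Y a b L k) :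
    ∃ z y x r, w = z :: y :: r ∧ ∀ c, c ≠ z →
      φ 0 false - (if c = y then dY φ (ty w) else 0) - (if c = x then dX φ (ty w) else 0) ≤
        (open Classical in if ¬ sq 2 (c :: w) ∧ ¬ sq 3 (c :: w) then φ (ty (c :: w)) false else 0) := by
  classical
  have hM0 := h0 0 false
  have hM1 := hM 1
  have hM2 := hM 2
  have hM3 := hM 3
  have q1 := h0 1 false
  have q2 := h0 2 false
  have q3 := h0 3 false
  rcases shape hw with ⟨z, y, rfl⟩ | ⟨z, y, x, rfl⟩ | ⟨z, y, x, u, rfl⟩ | ⟨z, y, x, u, v, r, rfl⟩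
  · refine ⟨z, y, 0, [], rfl, fun c hc => ?_⟩
    have n3 := sq3' (w := [c, z, y]) (by simp)
    have n2 := sq2' (c := c) (z := z) (y := y)
    rw [if_pos (show ¬ sq 2 [c, z, y] ∧ ¬ sq 3 [c, z, y] from ⟨n2, n3⟩)]
    simp only [ty, dY, dX]
    split_ifs <;> first | linarith | (exfalso; omega)
  · refine ⟨z, y, x, [x], rfl, fun c hc => ?_⟩
    have n3 := sq3' (w := [c, z, y, x]) (by simp)
    simp only [sq2, n3, not_false_eq_true, and_true]
    simp only [ty, dY, dX]
    split_ifs <;> first | linarith | (exfalso; omega)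
  · refine ⟨z, y, x, [x, u], rfl, fun c hc => ?_⟩
    have n3 := sq3' (w := [c, z, y, x, u]) (by simp)
    simp only [sq2, n3, not_false_eq_true, and_true]
    simp only [ty, dY, dX]
    split_ifs <;> first | linarith | (exfalso; omega)
  · refine ⟨z, y, x, x :: u :: v :: r, rfl, fun c hc => ?_⟩
    simp only [sq2, sq3]
    simp only [ty, dY, dX]
    split_ifs <;> first | linarith | (exfalso; omega)

lemma one (φ : ℕ → Bool → ℚ) (δ : ℚ) (hδ : 0 ≤ δ) (h0 : ∀ i β, 0 ≤ φ i β)
    (hM : ∀ i, φ i false ≤ φ 0 false) (hφ : ∀ i, φ i false - δ ≤ φ i true)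
    {k : ℕ} {w : List ℕ} (hw : w ∈ Y a b L k) (S : Finset ℕ) :
    φ 0 false * S.card - φ 0 false - dY φ (ty w) - dX φ (ty w) - dS φ δ (w.head? = some a) ≤
      ∑ c ∈ S, (open Classical in if okc a b w c then φ (ty (c :: w)) (decide (c = a)) else 0) := by
  classical
  have hdY : 0 ≤ dY φ (ty w) := by
    unfold dY; split_ifs
    · exact h0 _ _
    · linarith [hM 3]
  have hdX : 0 ≤ dX φ (ty w) := by
    unfold dX; split_ifs
    · linarith [hM 1]
    · linarith [hM 2]
    · exact h0 _ _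
    · exact le_rfl
  have hdS : 0 ≤ dS φ δ (w.head? = some a) := by
    unfold dS; split_ifs
    · exact h0 _ _
    · exact hδ
  obtain ⟨z, y, x, r, hwe, haux⟩ := aux φ h0 hM hw
  refine sum4 S _ _ z y x (if z = a then b else a) _ _ _ _ (h0 0 false) hdY hdX hdS (fun c _ => ?_)
  have g1 : 0 ≤ (if c = y then dY φ (ty w) else 0) := by split_ifs <;> [exact hdY; exact le_rfl]
  have g2 : 0 ≤ (if c = x then dX φ (ty w) else 0) := by split_ifs <;> [exact hdX; exact le_rfl]
  have g3 : 0 ≤ (if c = (if z = a then b else a) then dS φ δ (w.head? = some a) else 0) := by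
    split_ifs <;> first | exact hdS | exact le_rfl
  have g4 : 0 ≤ (if okc a b w c then φ (ty (c :: w)) (decide (c = a)) else 0) := by
    split_ifs <;> [exact h0 _ _; exact le_rfl]
  by_cases e1 : c = z
  · rw [if_pos e1]; linarith
  rw [if_neg e1]
  have hA := haux c e1
  by_cases e2 : c = (if z = a then b else a)
  · rw [if_pos e2]
    by_cases e3 : z = a
    · have : dS φ δ (w.head? = some a) = φ 0 false := by
        unfold dS; rw [if_pos]; rw [hwe, e3]; rfl
      linarith
    · have : dS φ δ (w.head? = some a) = δ := by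
        unfold dS; rw [if_neg]; rw [hwe]; simpa using e3
      rw [this]
      by_cases e4 : ¬ sq 2 (c :: w) ∧ ¬ sq 3 (c :: w)
      · rw [if_pos e4] at hA
        have hok : okc a b w c := by
          refine ⟨?_, e4.1, e4.2, ?_⟩
          · rw [hwe, sq1]; exact e1
          · rw [hwe]; simp only [List.head?_cons, Option.some.injEq]; tauto
        rw [if_pos hok]
        have hca : c = a := by rw [e2, if_neg e3]
        have : decide (c = a) = true := by simpa using hca
        rw [this]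
        linarith [hφ (ty (c :: w))]
      · rw [if_neg e4] at hA
        linarith
  · rw [if_neg e2]
    by_cases e4 : ¬ sq 2 (c :: w) ∧ ¬ sq 3 (c :: w)
    · rw [if_pos e4] at hA
      have hok : okc a b w c := by
        refine ⟨?_, e4.1, e4.2, ?_⟩
        · rw [hwe, sq1]; exact e1
        · rw [hwe]; simp only [List.head?_cons, Option.some.injEq]
          rintro ⟨h1, h2⟩
          apply e2; rw [if_pos h1]; exact h2
      rw [if_pos hok]
      have hca : c ≠ a := by
        intro hca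
        by_cases e3 : z = a
        · exact e1 (hca.trans e3.symm)
        · apply e2; rw [if_neg e3]; exact hca
      have : decide (c = a) = false := by simpa using hca
      rw [this]
      linarith
    · rw [if_neg e4] at hA
      linarith

end H112NR
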